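import Pool.Agent.H96.BP.Asm2
import Pool.Agent.H96.BP.OutA
import Pool.Agent.H96.BP.OutB
import Pool.Agent.H96.BP.Det
import Pool.Agent.H96.BP.Dis
import Pool.Agent.H96.BP.WidA
import Pool.Agent.H96.BP.WidB
import Pool.Agent.H96.BP.VolA
import Pool.Agent.H96.BP.VolB
import Pool.Agent.H96.BP.Nfa
import Pool.Agent.H96.BP.Pat
import Pool.Agent.H96.BP.Coo
import Pool.Agent.H96.BP.Coo2
import Pool.Agent.H96.BP.Ext
import Pool.Agent.H96.BP.Sta
import Pool.Agent.H96.BP.Rat
import Pool.Agent.H96.BP.Min

/-!
# Lattice packings of polytopes with at most five vertices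

Every polytope `K` in space with at most five vertices has lattice packing density
`δ_L(K) ≥ 18/49`, with equality exactly for the tetrahedra; more precisely `K` contains a tetrahedron
`Δ`, spanned by vertices of `K`, with `δ_L(K) ≥ (18/49) (1 + (vol K / vol Δ - 1) / 10)`. As
tetrahedra do not minimise `δ_L`, every convex body of least lattice packing density has at least six
extreme points.

`Body`, `dL`, `mn` are convex bodies, the density `δ_L` of the problem and the minimum over all convex
bodies, see `Pool.Agent.TH219.DL.Defs`.

Proof: let `Δ` be a tetrahedron of largest volume spanned by four of the points, with barycentric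
coordinates `β`. All four coordinates of the fifth point are in `[-1, 1]`, so either one or two of
them are negative. The widths of `K` in the seven directions `β i`, `β i + β j` (the normals of the
facets of `Δ - Δ`) are bounded in terms of at most three parameters, and for the body with exactly
these widths in these directions there is an explicit packing lattice, with a basis that depends
linearly on the parameters and is equal to a basis of the critical lattice of `Δ - Δ` for
the value zero; its determinant is smaller than `(49/108) * 6 vol K` (for `vol Δ = 1/6`).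
-/

namespace Pool.Agent.Results.MP_3d065d_co.AtMostFiveVertices

open MeasureTheory Pool.Agent.TH219.DL

/-- `K` is a tetrahedron -/
def IsTetrahedron (K : Set (Fin 3 → ℝ)) : Prop :=
  ∃ p : Fin 4 → (Fin 3 → ℝ), AffineIndependent ℝ p ∧ K = convexHull ℝ (Set.range p)

open Pool.Agent.H96.BP in
/-- 1. Let `K` be the convex hull of five points, with interior points. Then `δ_L(K) ≥ 18/49`, with
equality exactly if `K` is a tetrahedron; and four of the points span a tetrahedron `Δ` with
`δ_L(K) ≥ (18/49) (1 + (vol K / vol Δ - 1) / 10)`.
2. Every convex body `K` with `δ_L(K) = m_L` has at least six extreme points. -/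
theorem result :
    (∀ p : Fin 5 → (Fin 3 → ℝ), (interior (convexHull ℝ (Set.range p))).Nonempty →
      18 / 49 ≤ dL (convexHull ℝ (Set.range p)) ∧
      (dL (convexHull ℝ (Set.range p)) = 18 / 49 ↔ IsTetrahedron (convexHull ℝ (Set.range p))) ∧
      ∃ q : Fin 4 → (Fin 3 → ℝ), AffineIndependent ℝ q ∧ Set.range q ⊆ Set.range p ∧
        ENNReal.ofReal (18 / 49 * (1 + ((volume (convexHull ℝ (Set.range p))).toReal /
          (volume (convexHull ℝ (Set.range q))).toReal - 1) / 10)) ≤
            dL (convexHull ℝ (Set.range p))) ∧
    ∀ K : Set (Fin 3 → ℝ), Body K → dL K = mn dL → 6 ≤ (K.extremePoints ℝ).encard := by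
  have h1 : ∀ p : Fin 5 → (Fin 3 → ℝ), (interior (convexHull ℝ (Set.range p))).Nonempty →
      18 / 49 ≤ dL (convexHull ℝ (Set.range p)) ∧
      (dL (convexHull ℝ (Set.range p)) = 18 / 49 ↔
        IsTetrahedron (convexHull ℝ (Set.range p))) := by
    intro p hp
    rw [dL_eq]
    exact asm_main t_outa t_outb t_det t_dis t_wida t_widb t_vola t_volb t_nfa t_pat t_coo p hp
  refine ⟨fun p hp => ⟨(h1 p hp).1, (h1 p hp).2, ?_⟩, ?_⟩
  · rw [dL_eq]
    exact asm2_main t_outa t_outb t_det t_sta t_dis t_wida t_widb t_vola t_volb t_nfa t_pat t_coo2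
      t_rat p hp
  · intro K hK hm
    by_contra hlt
    obtain ⟨p, rfl⟩ := t_ext K hK.1 hK.2.1 (hK.2.2.mono interior_subset) (not_le.1 hlt)
    have h2 := (h1 p hK.2.2).1
    rw [hm] at h2
    exact absurd min_lt (not_lt.2 h2)

end Pool.Agent.Results.MP_3d065d_co.AtMostFiveVertices
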