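import Pool.Agent.H716.SH.Top

/-!
# Every convex body in space has a lattice packing of density at least
`2 / (9 √(1 - √6 / 12)) > 0.249`

`Body K`: `K` is a convex body in `ℝ³` (compact, convex, with interior points). `dL K`, `dT K` are the
suprema of the densities of the lattice packings and of the packings by translates of `K`, and `mn`
is the minimum (infimum) over all convex bodies, see `Pool.Agent.TH219.DL.Defs`.

Proof: after a linear change of coordinates the least ellipsoid containing `K - K` is the unit ball.
John's decomposition uses at most six pairs of contact points; let `e` be one with the *largest*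
weight `w ≥ 1/2` and project the others (at most five, weights `c_i ≤ w` with sum `3 - w`) along `e`.
If all cross products `x_ij` of two of the projections satisfied `x_ij² < 1/2`, then
`∑ c_i c_j x_ij² < 1` over the pairs `i < j`, while this sum is `1` by the Cauchy-Binet formula. For
five weighted vectors of the plane with pairwise cross products at most one in absolute value one
has `∑_{i<j} c_i c_j x_ij² ≤ 2` for the weights which occur here: this is a fractional form of
Turán's theorem (files `Quad`, `Five`, `Cases`, `Planar`). So two of the contact points span, in
the projection, a parallelogram of area at least `1 / √2`, which is sharp for the regular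
tetrahedron, and the shadow of `K` along `e` has area at least `√2 / 4` (the earlier argument with a
minimal ellipse of the shadow gave `√3 / 5`).
The translates of `K` are arranged in columns along `e` over a lattice of Fáry for the shadow, of
determinant `D` at most `3/2` of its area, and the next layer is shifted horizontally to the
deepest hole of the planar lattice, which is at distance at least `√(2 D / (3 √3))` from all its
points, so that the layers are at distance `√(1 - 2 D / (3 √3))` instead of `1`.
-/

set_option autoImplicit false

namespace Pool.Agent.Results.MP_3d065d_co.SharpShadowBound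

open Pool.Agent.TH219.DL

/-- Every convex body in space has lattice packing density at least
`2 / (9 √(1 - √6 / 12)) = 0.24909…`; so the minima of the lattice packing density and of the
translative packing density are at least `0.249`. -/
theorem result :
    (∀ K : Set (Fin 3 → ℝ), Body K → ENNReal.ofReal (2 / (9 * √(1 - √6 / 12))) ≤ dL K) ∧
      ENNReal.ofReal 0.249 ≤ mn dL ∧ ENNReal.ofReal 0.249 ≤ mn dT := by
  have h6 : (2.449 : ℝ) ≤ √6 := Real.le_sqrt_of_sq_le (by norm_num)
  have hk : 0 < 1 - √6 / 12 := by
    have := Pool.Agent.H716.SH.k0_lt
    linarith
  have h0 : (0.249 : ℝ) ≤ 2 / (9 * √(1 - √6 / 12)) := by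
    have h1 : √(1 - √6 / 12) ≤ 0.8924 := by
      rw [Real.sqrt_le_left (by norm_num)]
      norm_num
      linarith
    have h2 : 0 < √(1 - √6 / 12) := Real.sqrt_pos.2 hk
    rw [le_div_iff₀ (by positivity)]
    norm_num
    linarith
  have h1 : ∀ K : Set (Fin 3 → ℝ), Body K → ENNReal.ofReal 0.249 ≤ dL K := fun K hK =>
    (ENNReal.ofReal_le_ofReal h0).trans (Pool.Agent.H716.SH.low hK)
  exact ⟨fun K hK => Pool.Agent.H716.SH.low hK, le_iInf₂ fun K hK => h1 K hK,
    le_iInf₂ fun K hK => (h1 K hK).trans (dL_le_dT K)⟩

end Pool.Agent.Results.MP_3d065d_co.SharpShadowBound
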